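import Pool.Agent.H845.StubFinal

namespace Pool.Agent.Results.MP_6065fc_lc.StubbornReduct

open FirstOrder Pool.Agent.H845.Stub

/-- There is a countably infinite homogeneous `ω`-categorical structure `B` in a finite relational
language, with primitive automorphism group, which is stubborn, and a first-order reduct `A` of `B`
whose model-complete core `C` has at least two elements, is not stubborn, and is not first-order
interdefinable with `(ℕ; =)`.  (`B` is the generic superposition of a dense linear order and an
independent dense betweenness relation, and `A = C` is its reduct to the linear order.) -/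
theorem result :
    ∃ (L : FirstOrder.Language.{0, 0}) (M : Type) (B : L.Structure M),
      L.IsRelational ∧ Finite (Σ n, L.Relations n) ∧ Countable M ∧ Infinite M ∧
      HasPrimitiveAut B ∧ StubbornHomogeneous B ∧
      ∃ (L' : FirstOrder.Language.{0, 0}) (A : L'.Structure M),
        L'.IsRelational ∧ IsReduct A B ∧
        ∃ (N : Type) (C : L'.Structure N),
          Countable N ∧ IsMCCore C ∧ HomEquivalent A C ∧
          Nontrivial N ∧ ¬ Stubborn C ∧ ¬ InterdefinableWithPureSet C :=
  ⟨LB, D, BS, LB_rel, LB_finite, inferInstance, inferInstance, BS_primitive,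
    ⟨BS_omega, BS_homogeneous, BS_stubborn_core⟩, LA, AS, LA_rel, AS_reduct, D, AS,
    inferInstance, AS_core, ⟨⟨id, fun _ _ _ h => h⟩, ⟨id, fun _ _ _ h => h⟩⟩, inferInstance,
    AS_not_stubborn, AS_not_pure⟩

end Pool.Agent.Results.MP_6065fc_lc.StubbornReduct
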